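import Pool.Agent.H34.Dec.Copies
import Pool.Agent.FNW.Farkas
import Pool.Agent.FNW.NoDec

/-!
The fractional triangle decomposition threshold equals three quarters.
-/

open Finset
open scoped Classical

namespace Pool.Agent.Results.MP_9205ce_co.FracNashWilliams

open Pool.H34.Dec

/-- `G` is `F`-divisible: `e(F)` divides `e(G)` and the gcd of the degrees of `F` divides every
degree of `G`. -/
def Divisible {W V : Type} [Fintype W] [Fintype V] (F : SimpleGraph W) (G : SimpleGraph V) : Prop :=
  F.edgeFinset.card ∣ G.edgeFinset.card ∧ ∀ v, (univ.gcd (fun x => F.degree x)) ∣ G.degree v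

/-- The fractional threshold `δ*_F`: the infimum of all `δ ∈ [0,1]` such that for some `n₀` every
`F`-divisible graph `G` on `n ≥ n₀` vertices with minimum degree at least `δ n` has a fractional
`F`-decomposition. -/
noncomputable def fracThreshold {W : Type} [Fintype W] (F : SimpleGraph W) : ℝ :=
  sInf {δ : ℝ | 0 ≤ δ ∧ δ ≤ 1 ∧ ∃ n₀ : ℕ, ∀ n ≥ n₀, ∀ G : SimpleGraph (Fin n), Divisible F G →
    (∀ v, δ * n ≤ G.degree v) → ∃ w, IsFracDecomp F G w}

lemma ef_inst {V : Type} (G : SimpleGraph V) (i j : Fintype G.edgeSet) :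
    (@SimpleGraph.edgeFinset V G i).card = (@SimpleGraph.edgeFinset V G j).card := by
  rw [Subsingleton.elim i j]

lemma dg_inst {V : Type} (G : SimpleGraph V) (v : V) (i j : Fintype (G.neighborSet v)) :
    @SimpleGraph.degree V G v i = @SimpleGraph.degree V G v j := by
  rw [Subsingleton.elim i j]

lemma card_top3 (i : Fintype (⊤ : SimpleGraph (Fin 3)).edgeSet) :
    (@SimpleGraph.edgeFinset (Fin 3) ⊤ i).card = 3 := by
  exact (ef_inst _ i _).trans ((SimpleGraph.card_edgeFinset_top_eq_card_choose_two (V := Fin 3)).trans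
    (by rw [Fintype.card_fin]; decide))

lemma deg_top3 (x : Fin 3) (i : Fintype ((⊤ : SimpleGraph (Fin 3)).neighborSet x)) :
    @SimpleGraph.degree (Fin 3) ⊤ x i = 2 := by
  exact (dg_inst _ x i _).trans ((SimpleGraph.complete_graph_degree (V := Fin 3) x).trans
    (by rw [Fintype.card_fin]))

/-- the upper bound -/
theorem upper (V : Type) [Fintype V] (G : SimpleGraph V)
    (hG : ∀ v, (3 / 4 : ℝ) * Fintype.card V ≤ G.degree v) :
    ∃ w, IsFracDecomp (⊤ : SimpleGraph (Fin 3)) G w := by
  have hF : (⊤ : SimpleGraph (Fin 3)) ≠ ⊥ := by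
    intro h
    have h1 : (⊤ : SimpleGraph (Fin 3)).Adj 0 1 := by simp
    rw [h] at h1
    exact h1
  obtain ⟨w, w0, w1, w2⟩ := Pool.FNW.exists_weights hG
  exact fracDecomp_of_weights _ hF G 3 (by simp) w w0 w1 w2

/-- **Main theorem.** -/
theorem result :
    (∀ (V : Type) [Fintype V] (G : SimpleGraph V),
      (∀ v, (3 / 4 : ℝ) * Fintype.card V ≤ G.degree v) →
      ∃ w, IsFracDecomp (⊤ : SimpleGraph (Fin 3)) G w) ∧
    fracThreshold (⊤ : SimpleGraph (Fin 3)) = 3 / 4 := by
  refine ⟨fun V _ G hG => upper V G hG, ?_⟩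
  have hmem : (3 / 4 : ℝ) ∈ {δ : ℝ | 0 ≤ δ ∧ δ ≤ 1 ∧ ∃ n₀ : ℕ, ∀ n ≥ n₀,
      ∀ G : SimpleGraph (Fin n), Divisible (⊤ : SimpleGraph (Fin 3)) G →
      (∀ v, δ * n ≤ G.degree v) → ∃ w, IsFracDecomp (⊤ : SimpleGraph (Fin 3)) G w} := by
    refine ⟨by norm_num, by norm_num, 0, ?_⟩
    intro n _ G _ hG
    apply upper (Fin n) G
    intro v
    rw [Fintype.card_fin]
    exact hG v
  apply le_antisymm
  · exact csInf_le ⟨0, fun δ hδ => hδ.1⟩ hmem
  · apply le_csInf ⟨_, hmem⟩
    rintro δ ⟨hδ0, _, n₀, hδ⟩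
    by_contra hlt
    push Not at hlt
    -- the size of the example
    obtain ⟨k, hk⟩ := exists_nat_ge (1 / (3 / 4 - δ))
    set K : ℕ := max n₀ k with hK
    set m : ℕ := 6 * K + 3 with hm
    have hn₀ : m * 4 ≥ n₀ := by
      have : n₀ ≤ K := le_max_left _ _
      omega
    have hkm : (k : ℝ) ≤ ((m * 4 : ℕ) : ℝ) := by
      have : k ≤ K := le_max_right _ _
      have : k ≤ m * 4 := by omega
      exact_mod_cast this
    have hgap : 1 ≤ (3 / 4 - δ) * ((m * 4 : ℕ) : ℝ) := by
      have h1 : 1 / (3 / 4 - δ) ≤ ((m * 4 : ℕ) : ℝ) := hk.trans hkm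
      rwa [div_le_iff₀ (by linarith), mul_comm] at h1
    let e : Fin m × Fin 4 ≃ Fin (m * 4) := finProdFinEquiv
    let G : SimpleGraph (Fin (m * 4)) := (Pool.FNW.blow m).comap e.symm
    let φ : G ≃g Pool.FNW.blow m := SimpleGraph.Iso.comap e.symm (Pool.FNW.blow m)
    have hdeg : ∀ v [Fintype (G.neighborSet v)], G.degree v + 1 = 3 * m := by
      intro v _
      rw [← Pool.FNW.blow_degree m (φ v)]
      congr 1
      exact (φ.degree_eq v).symm
    have hdiv : Divisible (⊤ : SimpleGraph (Fin 3)) G := by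
      constructor
      · rw [card_top3]
        have h2 := G.sum_degrees_eq_twice_card_edges
        have h3 : ∑ v, G.degree v = (m * 4) * (3 * m - 1) := by
          have : ∀ v, G.degree v = 3 * m - 1 := fun v => by have := hdeg v; omega
          rw [Finset.sum_congr rfl fun v _ => this v, Finset.sum_const, Finset.card_univ,
            Fintype.card_fin, smul_eq_mul]
        rw [h3] at h2
        have h4 : G.edgeFinset.card = 3 * ((2 * K + 1) * 2 * (3 * m - 1)) := by
          have h5 : 2 * G.edgeFinset.card = 2 * (3 * ((2 * K + 1) * 2 * (3 * m - 1))) := by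
            rw [← h2, hm]; ring
          omega
        rw [ef_inst G _ inferInstance, h4]
        exact Dvd.intro _ rfl
      · intro v
        refine (Finset.gcd_dvd (Finset.mem_univ (0 : Fin 3))).trans ?_
        rw [deg_top3]
        have := hdeg v
        have h4 : G.degree v = 2 * (9 * K + 4) := by omega
        change (2 : ℕ) ∣ _
        rw [dg_inst G v _ inferInstance, h4]
        exact Dvd.intro _ rfl
    have hmin : ∀ v, δ * ((m * 4 : ℕ) : ℝ) ≤ G.degree v := by
      intro v
      have h1 : (G.degree v : ℝ) + 1 = 3 * m := by exact_mod_cast hdeg v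
      have h2 : ((m * 4 : ℕ) : ℝ) = 4 * m := by push_cast; ring
      rw [h2] at hgap ⊢
      linarith
    have hex := hδ (m * 4) hn₀ G hdiv hmin
    refine Pool.FNW.no_dec (G := G) (F := fun u v => Pool.FNW.tf (e.symm u).2 (e.symm v).2)
      ?_ ?_ ?_ hex
    · intro a b
      unfold Pool.FNW.tf
      simp only [eq_comm]
    · intro a b c h1 h2 h3
      exact Pool.FNW.blow_tri h1 h2 h3
    · refine lt_of_lt_of_eq (b := ∑ u, ∑ v, (if (Pool.FNW.blow m).Adj u v
        then Pool.FNW.tf u.2 v.2 else 0)) ?_ ?_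
      · rw [Pool.FNW.blow_sum]
        have : 0 < m := by omega
        positivity
      · rw [← Equiv.sum_comp e.symm]
        refine Finset.sum_congr rfl fun a _ => ?_
        rw [← Equiv.sum_comp e.symm]
        refine Finset.sum_congr rfl fun b _ => ?_
        by_cases h : (Pool.FNW.blow m).Adj (e.symm a) (e.symm b)
        · rw [if_pos h, if_pos (show G.Adj a b from h)]
        · rw [if_neg h, if_neg (show ¬ G.Adj a b from h)]

end Pool.Agent.Results.MP_9205ce_co.FracNashWilliams
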