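import Pool.Agent.TCF.Asm
import Pool.Agent.OCG.CutOdd

/-!
The fractional decomposition thresholds of 3-colourable graphs.
-/

open Finset
open scoped Classical

namespace Pool.Agent.Results.MP_9205ce_co.FracThreeColourable

open Pool.H34.Dec Pool.TCF

/-- The fractional threshold `δ*_F`: the infimum of all `δ ∈ [0,1]` such that for some `n₀` every
`F`-divisible graph `G` on `n ≥ n₀` vertices with minimum degree at least `δ n` has a fractional
`F`-decomposition. -/
noncomputable def fracThreshold {W : Type} [Fintype W] (F : SimpleGraph W) : ℝ :=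
  sInf {δ : ℝ | 0 ≤ δ ∧ δ ≤ 1 ∧ ∃ n₀ : ℕ, ∀ n ≥ n₀, ∀ G : SimpleGraph (Fin n), Divisible F G →
    (∀ v, δ * n ≤ G.degree v) → ∃ w, IsFracDecomp F G w}

/-- `D` is an `F`-decomposition of `G`: copies of `F` such that every edge of `G` is in exactly one. -/
def IsDecomp {W V : Type} [Fintype W] [Fintype V] (F : SimpleGraph W) (G : SimpleGraph V)
    (D : Finset G.Subgraph) : Prop :=
  (∀ H ∈ D, Nonempty (F ≃g H.coe)) ∧ ∀ e ∈ G.edgeSet, ∃! H, H ∈ D ∧ e ∈ H.edgeSet

/-- The decomposition threshold `δ_F`: the infimum of all `δ ∈ [0,1]` such that for some `n₀` every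
`F`-divisible graph `G` on `n ≥ n₀` vertices with minimum degree at least `δ n` has an
`F`-decomposition. -/
noncomputable def decThreshold {W : Type} [Fintype W] (F : SimpleGraph W) : ℝ :=
  sInf {δ : ℝ | 0 ≤ δ ∧ δ ≤ 1 ∧ ∃ n₀ : ℕ, ∀ n ≥ n₀, ∀ G : SimpleGraph (Fin n), Divisible F G →
    (∀ v, δ * n ≤ G.degree v) → ∃ D, IsDecomp F G D}

/-- some independent set `I` is such that `F - I` is bipartite and has a bridge -/
def BipBridge {W : Type} (F : SimpleGraph W) : Prop :=
  ∃ I : Set W, Indep F I ∧ (del F I).Colorable 2 ∧ HasBridge (del F I)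

/-- `F - I` has no bridge, for every independent set `I` -/
def NoBridge {W : Type} (F : SimpleGraph W) : Prop :=
  ∀ I : Set W, Indep F I → ¬ HasBridge (del F I)

lemma bdd {W : Type} [Fintype W] (F : SimpleGraph W) : BddBelow {δ : ℝ | 0 ≤ δ ∧ δ ≤ 1 ∧
      ∃ n₀ : ℕ, ∀ n ≥ n₀, ∀ G : SimpleGraph (Fin n), Divisible F G →
      (∀ v, δ * n ≤ G.degree v) → ∃ w, IsFracDecomp F G w} := ⟨0, fun _ hδ => hδ.1⟩

lemma no_full {n : ℕ} (hn : n ≥ 1) (G : SimpleGraph (Fin n)) (hG : ∀ v, (1 : ℝ) * n ≤ G.degree v) :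
    False := by
  have h1 := hG ⟨0, by omega⟩
  have h2 := G.degree_lt_card_verts ⟨0, by omega⟩
  rw [Fintype.card_fin] at h2
  have h3 : ((G.degree ⟨0, by omega⟩ : ℕ) : ℝ) < n := by exact_mod_cast h2
  linarith

lemma one_mem {W : Type} [Fintype W] (F : SimpleGraph W) : (1 : ℝ) ∈ {δ : ℝ | 0 ≤ δ ∧ δ ≤ 1 ∧
      ∃ n₀ : ℕ, ∀ n ≥ n₀, ∀ G : SimpleGraph (Fin n), Divisible F G →
      (∀ v, δ * n ≤ G.degree v) → ∃ w, IsFracDecomp F G w} :=
  ⟨by norm_num, le_rfl, 1, fun n hn G _ hG => (no_full hn G hG).elim⟩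

lemma le_one {W : Type} [Fintype W] (F : SimpleGraph W) : fracThreshold F ≤ 1 :=
  csInf_le (bdd F) (one_mem F)

lemma upper {W : Type} [Fintype W] {F : SimpleGraph W} {δ : ℝ} (hδ : 0 ≤ δ) (h : Up F δ) :
    fracThreshold F ≤ δ := by
  rcases le_or_gt 1 δ with h1 | h1
  · exact (le_one F).trans h1
  refine le_of_forall_pos_le_add fun ε hε => ?_
  have hm : 0 < min ε (1 - δ) := lt_min hε (by linarith)
  obtain ⟨n₀, hn₀⟩ := h (min ε (1 - δ)) hm
  have hmem : δ + min ε (1 - δ) ∈ {δ : ℝ | 0 ≤ δ ∧ δ ≤ 1 ∧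
      ∃ n₀ : ℕ, ∀ n ≥ n₀, ∀ G : SimpleGraph (Fin n), Divisible F G →
      (∀ v, δ * n ≤ G.degree v) → ∃ w, IsFracDecomp F G w} := by
    refine ⟨by positivity, by linarith [min_le_right ε (1 - δ)], n₀, ?_⟩
    intro n hn G _ hG
    refine hn₀ (Fin n) G ?_ ?_
    · rw [Fintype.card_fin]
      exact hn
    · intro v
      rw [Fintype.card_fin]
      exact hG v
  refine (csInf_le (bdd F) hmem).trans ?_
  linarith [min_le_left ε (1 - δ)]

lemma lower {W : Type} [Fintype W] {F : SimpleGraph W} {δ₀ : ℝ}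
    (h : ∀ δ < δ₀, ∀ n₀ : ℕ, ∃ n ≥ n₀, Bad F δ n) : δ₀ ≤ fracThreshold F := by
  apply le_csInf ⟨_, one_mem F⟩
  rintro δ ⟨_, _, n₀, hδ⟩
  by_contra hlt
  push Not at hlt
  obtain ⟨n, hn, G, h1, h2, h3⟩ := h δ hlt n₀
  exact h3 (hδ n hn G h1 h2)

/-- a decomposition is a fractional decomposition -/
lemma frac_of_dec {W V : Type} [Fintype W] [Fintype V] {F : SimpleGraph W} {G : SimpleGraph V}
    {D : Finset G.Subgraph} (hD : IsDecomp F G D) : ∃ w, IsFracDecomp F G w := by
  refine ⟨fun H => if H ∈ D then 1 else 0, fun H => ?_, fun H hH => ?_, fun e he => ?_⟩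
  · show 0 ≤ (if H ∈ D then (1 : ℝ) else 0) ∧ (if H ∈ D then (1 : ℝ) else 0) ≤ 1
    split_ifs <;> norm_num
  · by_cases h : H ∈ D
    · exact hD.1 H h
    · simp [h] at hH
  · obtain ⟨H, ⟨h1, h2⟩, h3⟩ := hD.2 e he
    rw [Finset.sum_eq_single H]
    · simp [h1]
    · intro H' hH' hne
      rw [Finset.mem_filter] at hH'
      rw [if_neg]
      intro h
      exact hne (h3 H' ⟨h, hH'.2⟩)
    · intro h
      exact absurd (Finset.mem_filter.2 ⟨Finset.mem_univ H, h2⟩) h

/-- the fractional threshold is at most the threshold -/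
lemma frac_le_dec {W : Type} [Fintype W] (F : SimpleGraph W) :
    fracThreshold F ≤ decThreshold F := by
  apply le_csInf
  · exact ⟨1, by norm_num, le_rfl, 1, fun n hn G _ hG => (no_full hn G hG).elim⟩
  · rintro δ ⟨h0, h1, n₀, h⟩
    refine csInf_le (bdd F) ⟨h0, h1, n₀, fun n hn G hd hG => ?_⟩
    obtain ⟨D, hD⟩ := h n hn G hd hG
    exact frac_of_dec hD

lemma eRatio_nonneg {W : Type} [Fintype W] (F : SimpleGraph W) (c : W → Fin 3) : 0 ≤ eRatio F c := by
  unfold eRatio
  positivity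

/-- the lower bound by the maximum cut -/
lemma lower_cut {W : Type} [Fintype W] {F : SimpleGraph W} {m : ℕ} (hm : m < F.edgeFinset.card)
    (h : CutLe F m) : (F.edgeFinset.card : ℝ) / (2 * m) ≤ fracThreshold F :=
  lower fun _ hδ n₀ => low1 hm h hδ n₀

/-- Every cut of `F` has at most `2k e(F) / (2k+1)` edges (edges counted as ordered pairs, that is
twice, on both sides). -/
def CutBound {W : Type} [Fintype W] (F : SimpleGraph W) (k : ℕ) : Prop :=
  ∀ side : W → Bool, (2 * k + 1) *
    (univ.filter fun x : W × W => F.Adj x.1 x.2 ∧ side x.1 ≠ side x.2).card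
    ≤ 2 * k * (univ.filter fun x : W × W => F.Adj x.1 x.2).card

lemma exact_val {W : Type} [Fintype W] {F : SimpleGraph W} {c : W → Fin 3} {m : ℕ}
    (hx : ecol F c 0 1 < F.edgeFinset.card) (h : CutLe F m)
    (hm : 2 * m = F.edgeFinset.card + ecol F c 0 1) : eRatio F c ≤ fracThreshold F := by
  have h1 := lower_cut (by omega : m < F.edgeFinset.card) h
  refine le_trans (le_of_eq ?_) h1
  unfold eRatio
  have h2 : ((2 * m : ℕ) : ℝ) = ((F.edgeFinset.card + ecol F c 0 1 : ℕ) : ℝ) := by rw [hm]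
  push_cast at h2
  rw [h2]

/-- the number of ordered pairs in a cut is even -/
lemma cut_even {W : Type} [Fintype W] (F : SimpleGraph W) (side : W → Bool) :
    Even (univ.filter fun x : W × W => F.Adj x.1 x.2 ∧ side x.1 ≠ side x.2).card := by
  have h1 : (univ.filter fun x : W × W => F.Adj x.1 x.2 ∧ side x.1 ≠ side x.2)
      = (univ.filter fun x : W × W => F.Adj x.1 x.2 ∧ side x.1 = true ∧ side x.2 = false) ∪
        (univ.filter fun x : W × W => F.Adj x.1 x.2 ∧ side x.1 = false ∧ side x.2 = true) := by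
    ext x
    simp only [mem_filter, mem_univ, true_and, mem_union]
    cases side x.1 <;> cases side x.2 <;> simp
  have h2 : Disjoint
      (univ.filter fun x : W × W => F.Adj x.1 x.2 ∧ side x.1 = true ∧ side x.2 = false)
      (univ.filter fun x : W × W => F.Adj x.1 x.2 ∧ side x.1 = false ∧ side x.2 = true) := by
    rw [Finset.disjoint_left]
    intro x hx hx'
    simp only [mem_filter, mem_univ, true_and] at hx hx'
    rw [hx.2.1] at hx'
    exact absurd hx'.2.1 (by simp)
  have h3 : (univ.filter fun x : W × W => F.Adj x.1 x.2 ∧ side x.1 = false ∧ side x.2 = true).card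
      = (univ.filter fun x : W × W => F.Adj x.1 x.2 ∧ side x.1 = true ∧ side x.2 = false).card := by
    refine Finset.card_bij' (fun x _ => x.swap) (fun x _ => x.swap) ?_ ?_ ?_ ?_
    · intro x hx
      simp only [mem_filter, mem_univ, true_and, Prod.fst_swap, Prod.snd_swap] at hx ⊢
      exact ⟨hx.1.symm, hx.2.2, hx.2.1⟩
    · intro x hx
      simp only [mem_filter, mem_univ, true_and, Prod.fst_swap, Prod.snd_swap] at hx ⊢
      exact ⟨hx.1.symm, hx.2.2, hx.2.1⟩
    · intro x _; simp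
    · intro x _; simp
  rw [h1, Finset.card_union_of_disjoint h2, h3]
  exact ⟨_, rfl⟩

lemma lower_cutBound {W : Type} [Fintype W] {F : SimpleGraph W} (hF : F ≠ ⊥) {k : ℕ} (hk : 1 ≤ k)
    (h : CutBound F k) : 1 / 2 + 1 / (4 * k) ≤ fracThreshold F := by
  have he := edge_pos hF
  set e := F.edgeFinset.card with hedef
  set m := 2 * k * e / (2 * k + 1) with hm
  have hm1 : (2 * k + 1) * m ≤ 2 * k * e := Nat.mul_div_le _ _
  have hcut : CutLe F m := by
    intro side
    obtain ⟨t, ht⟩ := cut_even F side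
    have h1 := h side
    rw [card_pairs F, ← hedef] at h1
    rw [ht] at h1 ⊢
    have h2 : t ≤ m := by
      rw [hm, Nat.le_div_iff_mul_le (by omega)]
      nlinarith
    omega
  have hme : m < e := by
    rw [hm, Nat.div_lt_iff_lt_mul (by omega)]
    nlinarith
  have hhalf := half_cut hcut
  have hm0 : 0 < m := by omega
  refine le_trans ?_ (lower_cut hme hcut)
  have hkr : (1 : ℝ) ≤ k := by exact_mod_cast hk
  have hm0r : (0 : ℝ) < m := by exact_mod_cast hm0
  have hm1r : (2 * (k : ℝ) + 1) * m ≤ 2 * k * e := by exact_mod_cast hm1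
  rw [← hedef, le_div_iff₀ (by positivity)]
  have h3 : (1 / 2 + 1 / (4 * (k : ℝ))) * (2 * m) = (2 * k + 1) * m / (2 * k) := by
    field_simp
    ring
  rw [h3, div_le_iff₀ (by positivity)]
  linarith

/-- a homomorphism to the cycle, in coordinates -/
lemma col_of_hom {W : Type} {F : SimpleGraph W} {k : ℕ} (hk : 1 ≤ k)
    (ψ : F →g SimpleGraph.cycleGraph (2 * k + 1)) : Pool.OCG.Col F (2 * k) ψ := by
  intro i j hij
  have h := ψ.map_adj hij
  obtain ⟨m, hm⟩ : ∃ m, 2 * k = m + 1 := ⟨2 * k - 1, by omega⟩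
  have key : ∀ (n : ℕ) (u v : Fin (n + 1)), n = m + 1 →
      (SimpleGraph.cycleGraph (n + 1)).Adj u v → v = u + 1 ∨ u = v + 1 := by
    intro n u v hn huv
    subst hn
    rw [SimpleGraph.cycleGraph_adj] at huv
    rcases huv with h | h
    · right; rw [← h]; abel
    · left; rw [← h]; abel
  exact key (2 * k) (ψ i) (ψ j) hm h

lemma cyc_ne_bot {k : ℕ} (hk : 1 ≤ k) : SimpleGraph.cycleGraph (2 * k + 1) ≠ ⊥ := by
  intro h
  obtain ⟨m, rfl⟩ : ∃ m, k = m + 1 := ⟨k - 1, by omega⟩
  have h1 : (SimpleGraph.cycleGraph (2 * (m + 1) + 1)).Adj 1 0 := by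
    show (SimpleGraph.cycleGraph (2 * m + 2 + 1)).Adj 1 0
    rw [SimpleGraph.cycleGraph_adj]
    left
    simp
  rw [h] at h1
  exact h1

lemma card_inst {α : Type} (s : Finset α) (p : α → Prop) (i j : DecidablePred p) :
    (@Finset.filter α p i s).card = (@Finset.filter α p j s).card := by
  rw [Subsingleton.elim i j]

lemma cutBound_cycle {k : ℕ} (hk : 1 ≤ k) : CutBound (SimpleGraph.cycleGraph (2 * k + 1)) k := by
  intro cc
  have := Pool.OCG.cut_cycle hk cc
  rw [card_inst univ (fun x : Fin (2 * k + 1) × Fin (2 * k + 1) =>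
    (SimpleGraph.cycleGraph (2 * k + 1)).Adj x.1 x.2 ∧ cc x.1 ≠ cc x.2) _ (fun _ => inferInstance),
    card_inst univ (fun x : Fin (2 * k + 1) × Fin (2 * k + 1) =>
    (SimpleGraph.cycleGraph (2 * k + 1)).Adj x.1 x.2) _ (fun _ => inferInstance)] at this
  rw [card_inst univ (fun x : Fin (2 * k + 1) × Fin (2 * k + 1) =>
    (SimpleGraph.cycleGraph (2 * k + 1)).Adj x.1 x.2 ∧ cc x.1 ≠ cc x.2) _ (fun _ => inferInstance),
    card_inst univ (fun x : Fin (2 * k + 1) × Fin (2 * k + 1) =>
    (SimpleGraph.cycleGraph (2 * k + 1)).Adj x.1 x.2) _ (fun _ => inferInstance)]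
  exact this

/-- cones over bipartite graphs with a perfect matching -/
lemma cone_threshold {U : Type} [Fintype U] [Nonempty U] {B : SimpleGraph U} {κ : U → Bool}
    (hκ : ∀ u v, B.Adj u v → κ u ≠ κ v) {M : B.Subgraph} (hM : M.IsPerfectMatching) :
    fracThreshold (cone B) = ((B.edgeFinset.card : ℝ) + Fintype.card U) /
      (2 * B.edgeFinset.card + Fintype.card U) := by
  obtain ⟨μ, hμ, hμ2⟩ := match_invol hM
  have hU : 0 < Fintype.card U := Fintype.card_pos
  obtain ⟨u₀⟩ := ‹Nonempty U›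
  have hB : B ≠ ⊥ := by
    intro h
    have := hμ u₀
    rw [h] at this
    exact this
  have hC : cone B ≠ ⊥ := by
    intro h
    have h1 : (cone B).Adj none (some u₀) := trivial
    rw [h] at h1
    exact h1
  obtain ⟨c, hc, h01, h2⟩ := cone_col hκ
  have hE := cone_edges B
  have hev : Even (Fintype.card U) := invol_even (fun u h => by
    have := hμ u
    rw [h] at this
    exact B.loopless.irrefl u this) hμ2
  obtain ⟨t, ht⟩ := hev
  have hval : eRatio (cone B) c = ((B.edgeFinset.card : ℝ) + Fintype.card U) /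
      (2 * B.edgeFinset.card + Fintype.card U) := by
    unfold eRatio
    rw [hE, h01]
    push_cast
    congr 1
    ring
  rw [← hval]
  apply le_antisymm
  · exact upper (eRatio_nonneg _ _) (up_val hC hc (cone_bow hκ hB))
  · refine exact_val (m := B.edgeFinset.card + t) (by rw [hE, h01]; omega) ?_ (by
      rw [hE, h01]; omega)
    intro side
    have := cone_cut hμ hμ2 side
    omega

lemma sides_of_col {U : Type} {B : SimpleGraph U} (h : B.Colorable 2) :
    ∃ κ : U → Bool, ∀ u v, B.Adj u v → κ u ≠ κ v := by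
  obtain ⟨c⟩ := h
  refine ⟨fun u => decide (c u = 0), fun u v huv heq => ?_⟩
  have h1 := c.valid huv
  have h2 : ∀ x y : Fin 2, x ≠ y → decide (x = 0) ≠ decide (y = 0) := by decide
  exact h2 _ _ h1 heq

lemma tri_ne_bot {a b c : ℕ} (hb : 1 ≤ b) (hc : 1 ≤ c) : tri a b c ≠ ⊥ := by
  intro h
  have h1 : (tri a b c).Adj ⟨1, (⟨0, hb⟩ : Fin b)⟩ ⟨2, (⟨0, hc⟩ : Fin c)⟩ := by
    show (1 : Fin 3) ≠ 2
    decide
  rw [h] at h1
  exact h1

/-- the complete tripartite graphs `K_{a,b,b}` -/
lemma tri_threshold {a b : ℕ} (ha : 1 ≤ a) (hab : a ≤ b) (h : a = 1 ∨ b ≤ 2 * a) :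
    fracThreshold (tri a b b) = (2 * (a : ℝ) + b) / (2 * a + 2 * b) := by
  have hb : 1 ≤ b := by omega
  have hF : tri a b b ≠ ⊥ := tri_ne_bot hb hb
  obtain ⟨c, hc, h01, _, _⟩ := tri_col a b b
  have hE := tri_edges a b b
  have har : (1 : ℝ) ≤ a := by exact_mod_cast ha
  have hbr : (1 : ℝ) ≤ b := by exact_mod_cast hb
  have hval : eRatio (tri a b b) c = (2 * (a : ℝ) + b) / (2 * a + 2 * b) := by
    unfold eRatio
    rw [hE, h01]
    push_cast
    have h1 : (0 : ℝ) < b := by linarith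
    rw [div_eq_div_iff (by positivity) (by positivity)]
    ring
  rw [← hval]
  apply le_antisymm
  · rcases h with h | h
    · subst h
      exact upper (eRatio_nonneg _ _) (up_val hF hc (tri_bow hb))
    · have h1 : max (2 / 3) (eRatio (tri a b b) c) = eRatio (tri a b b) c := by
        apply max_eq_right
        rw [hval, div_le_div_iff₀ (by norm_num) (by positivity)]
        have : (b : ℝ) ≤ 2 * a := by exact_mod_cast h
        linarith
      have h2 := upper (le_max_of_le_left (by norm_num)) (up_max hF hc)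
      rw [h1] at h2
      exact h2
  · have hab' : b * b < a * b + a * b + b * b := by
      have : 0 < a * b := Nat.mul_pos (by omega) (by omega)
      omega
    refine exact_val (m := b * (a + b)) (by rw [hE, h01]; exact hab') (tri_cut hab) ?_
    rw [hE, h01]
    ring

/-- the complete tripartite graphs `K_{a,b,c}` with large `b, c` -/
lemma tri_two_thirds {a b c : ℕ} (ha : 2 ≤ a) (hb : 1 ≤ b) (hc : 1 ≤ c)
    (h : a * (b + c) ≤ b * c) : fracThreshold (tri a b c) = 2 / 3 := by
  have hF : tri a b c ≠ ⊥ := tri_ne_bot hb hc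
  have hb2 : 2 ≤ b := by
    by_contra hcon
    have : b = 1 := by omega
    subst this
    nlinarith
  have hc2 : 2 ≤ c := by
    by_contra hcon
    have : c = 1 := by omega
    subst this
    nlinarith
  obtain ⟨f, hf, h01, _, _⟩ := tri_col a b c
  have hE := tri_edges a b c
  have har : (2 : ℝ) ≤ a := by exact_mod_cast ha
  have hbr : (2 : ℝ) ≤ b := by exact_mod_cast hb2
  have hcr : (2 : ℝ) ≤ c := by exact_mod_cast hc2
  apply le_antisymm
  · have h1 : max (2 / 3) (eRatio (tri a b c) f) = 2 / 3 := by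
      apply max_eq_left
      unfold eRatio
      rw [hE, h01]
      push_cast
      have h3 : (a : ℝ) * (b + c) ≤ b * c := by exact_mod_cast h
      rw [div_le_div_iff₀ (by positivity) (by norm_num)]
      linarith
    have h2 := upper (le_max_of_le_left (by norm_num)) (up_max hF hf)
    rw [h1] at h2
    exact h2
  · exact lower fun _ hδ n₀ => low2 hF (tri_nobr ha hb2 hc2) hδ n₀

/-- all rational numbers in `(1/2, 3/4]` occur -/
lemma all_rationals (v : ℚ) (h1 : 1 / 2 < v) (h2 : v ≤ 3 / 4) :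
    ∃ (W : Type) (_ : Fintype W) (F : SimpleGraph W), F ≠ ⊥ ∧ fracThreshold F = v := by
  have hv0 : 0 < v := by linarith
  obtain ⟨p, hp⟩ : ∃ p : ℕ, (p : ℤ) = v.num := ⟨v.num.toNat, by
    rw [Int.toNat_of_nonneg]
    exact (Rat.num_pos.2 hv0).le⟩
  have hq : 0 < v.den := v.den_pos
  have hvr : v = (p : ℚ) / v.den := by
    have := Rat.num_div_den v
    rw [← hp] at this
    push_cast at this
    exact this.symm
  have hqr : (0 : ℚ) < v.den := by exact_mod_cast hq
  have a1 : v.den < 2 * p := by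
    have : (v.den : ℚ) < 2 * p := by
      rw [hvr, lt_div_iff₀ hqr] at h1
      linarith
    exact_mod_cast this
  have a2 : 4 * p ≤ 3 * v.den := by
    have : (4 : ℚ) * p ≤ 3 * v.den := by
      rw [hvr, div_le_iff₀ hqr] at h2
      linarith
    exact_mod_cast this
  obtain ⟨n, B, hn, hκ, ⟨M, hM⟩, hval⟩ := rat_exists a1 a2
  have : Nonempty (Fin n × Bool) := ⟨(⟨0, hn⟩, true)⟩
  have hthr := cone_threshold (κ := Prod.snd) hκ hM
  refine ⟨Option (Fin n × Bool), inferInstance, cone B, ?_, ?_⟩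
  · intro h
    have h1 : (cone B).Adj none (some (⟨0, hn⟩, true)) := trivial
    rw [h] at h1
    exact h1
  · rw [hthr]
    have hcard : Fintype.card (Fin n × Bool) = 2 * n := by
      rw [Fintype.card_prod, Fintype.card_fin, Fintype.card_bool, mul_comm]
    have hvr' : ((v : ℚ) : ℝ) = (p : ℝ) / (v.den : ℝ) := by
      have h := congrArg (fun x : ℚ => (x : ℝ)) hvr
      push_cast at h
      exact h
    rw [hcard, hvr']
    push_cast
    have hn' : (0 : ℝ) < n := by exact_mod_cast hn
    have hq' : (0 : ℝ) < v.den := by exact_mod_cast hq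
    have hB0 : (0 : ℝ) ≤ B.edgeFinset.card := Nat.cast_nonneg _
    have hden : (2 * (B.edgeFinset.card : ℝ) + 2 * n) ≠ 0 := ne_of_gt (by linarith)
    rw [div_eq_div_iff hden hq'.ne']
    have : (v.den : ℝ) * (B.edgeFinset.card + 2 * n) = p * (2 * B.edgeFinset.card + 2 * n) := by
      exact_mod_cast hval
    linarith

/-- **Main theorem.** -/
theorem result :
    -- upper bounds: all 3-colourable graphs
    (∀ (W : Type) [Fintype W] (F : SimpleGraph W), F ≠ ⊥ → ∀ c : W → Fin 3, Prop3 F c →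
      (Up F (max (2 / 3) (eRatio F c)) ∧ fracThreshold F ≤ max (2 / 3) (eRatio F c)) ∧
      (BipBridge F → Up F (eRatio F c) ∧ fracThreshold F ≤ eRatio F c)) ∧
    -- lower bounds: all graphs
    (∀ (W : Type) [Fintype W] (F : SimpleGraph W), F ≠ ⊥ →
      (∀ m : ℕ, m < F.edgeFinset.card → CutLe F m →
        (F.edgeFinset.card : ℝ) / (2 * m) ≤ fracThreshold F) ∧
      (NoBridge F → 2 / 3 ≤ fracThreshold F) ∧ fracThreshold F ≤ decThreshold F) ∧
    -- exact values
    (∀ (W : Type) [Fintype W] (F : SimpleGraph W), F ≠ ⊥ → ∀ c : W → Fin 3, Prop3 F c →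
      (∀ m : ℕ, CutLe F m → 2 * m = F.edgeFinset.card + ecol F c 0 1 →
        ecol F c 0 1 < F.edgeFinset.card → (F.edgeFinset.card ≥ 2 * ecol F c 0 1 ∨ BipBridge F) →
        fracThreshold F = eRatio F c) ∧
      (F.edgeFinset.card ≤ 2 * ecol F c 0 1 → NoBridge F → fracThreshold F = 2 / 3)) ∧
    -- graphs which are homomorphic to the odd cycle `C_{2k+1}`
    (∀ (k : ℕ), 1 ≤ k →
      (∀ (W : Type) [Fintype W] (F : SimpleGraph W), F ≠ ⊥ →
        Nonempty (F →g SimpleGraph.cycleGraph (2 * k + 1)) →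
        Up F (1 / 2 + 1 / (4 * k)) ∧ fracThreshold F ≤ 1 / 2 + 1 / (4 * k) ∧
        (CutBound F k → fracThreshold F = 1 / 2 + 1 / (4 * k)) ∧
        ((∃ w, IsFracDecomp (SimpleGraph.cycleGraph (2 * k + 1)) F w) → CutBound F k)) ∧
      fracThreshold (SimpleGraph.cycleGraph (2 * k + 1)) = 1 / 2 + 1 / (4 * k)) ∧
    -- cones over bipartite graphs with a perfect matching
    (∀ (U : Type) [Fintype U] [Nonempty U] (B : SimpleGraph U), B.Colorable 2 →
      (∃ M : B.Subgraph, M.IsPerfectMatching) →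
      fracThreshold (cone B) = ((B.edgeFinset.card : ℝ) + Fintype.card U) /
        (2 * B.edgeFinset.card + Fintype.card U)) ∧
    -- complete tripartite graphs
    (∀ a b : ℕ, 1 ≤ a → a ≤ b → (a = 1 ∨ b ≤ 2 * a) →
      fracThreshold (tri a b b) = (2 * (a : ℝ) + b) / (2 * a + 2 * b)) ∧
    (∀ a b c : ℕ, 2 ≤ a → 1 ≤ b → 1 ≤ c → a * (b + c) ≤ b * c →
      fracThreshold (tri a b c) = 2 / 3) ∧
    -- all rational numbers in `(1/2, 3/4]` are fractional thresholds
    (∀ v : ℚ, 1 / 2 < v → v ≤ 3 / 4 →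
      ∃ (W : Type) (_ : Fintype W) (F : SimpleGraph W), F ≠ ⊥ ∧ fracThreshold F = v) ∧
    -- `3`-colourable graphs, for which the general bound `δ_F ≤ max (δ*_F) (3/4)` holds
    (∀ (W : Type) [Fintype W] (F : SimpleGraph W), F ≠ ⊥ → F.Colorable 3 →
      decThreshold F ≤ max (fracThreshold F) (3 / 4) →
      decThreshold F ≤ 3 / 4 ∧ (CutBound F 1 → decThreshold F = 3 / 4)) := by
  refine ⟨?_, ?_, ?_, ?_, ?_, ?_, ?_, ?_, ?_⟩
  · intro W _ F hF c hc
    refine ⟨⟨up_max hF hc, upper (le_max_of_le_left (by norm_num)) (up_max hF hc)⟩, ?_⟩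
    rintro ⟨I, hI, h2, hB⟩
    have := up_val hF hc (bow_of hI h2 hB)
    exact ⟨this, upper (eRatio_nonneg F c) this⟩
  · intro W _ F hF
    exact ⟨fun m hm h => lower_cut hm h, fun h => lower fun _ hδ n₀ => low2 hF h hδ n₀,
      frac_le_dec F⟩
  · intro W _ F hF c hc
    have hE : (0 : ℝ) < F.edgeFinset.card := by exact_mod_cast edge_pos hF
    have hx : (0 : ℝ) ≤ ecol F c 0 1 := Nat.cast_nonneg _
    constructor
    · intro m hm h1 h2 h3
      apply le_antisymm _ (exact_val h2 hm h1)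
      rcases h3 with h3 | ⟨I, hI, h4, hB⟩
      · have h5 : max (2 / 3) (eRatio F c) = eRatio F c := by
          apply max_eq_right
          unfold eRatio
          rw [div_le_div_iff₀ (by norm_num) (by positivity)]
          have : (2 : ℝ) * ecol F c 0 1 ≤ F.edgeFinset.card := by exact_mod_cast h3
          linarith
        have h6 := upper (le_max_of_le_left (by norm_num)) (up_max hF hc)
        rw [h5] at h6
        exact h6
      · exact upper (eRatio_nonneg F c) (up_val hF hc (bow_of hI h4 hB))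
    · intro h1 h2
      apply le_antisymm _ (lower fun _ hδ n₀ => low2 hF h2 hδ n₀)
      have h5 : max (2 / 3) (eRatio F c) = 2 / 3 := by
        apply max_eq_left
        unfold eRatio
        rw [div_le_div_iff₀ (by positivity) (by norm_num)]
        have : (F.edgeFinset.card : ℝ) ≤ 2 * ecol F c 0 1 := by exact_mod_cast h1
        linarith
      have h6 := upper (le_max_of_le_left (by norm_num)) (up_max hF hc)
      rw [h5] at h6
      exact h6
  · intro k hk
    have hkr : (1 : ℝ) ≤ k := by exact_mod_cast hk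
    refine ⟨?_, ?_⟩
    · rintro W _ F hF ⟨ψ⟩
      have h1 := up_cyc hF hk (col_of_hom hk ψ)
      have h2 := upper (by positivity) h1
      refine ⟨h1, h2, fun hc => le_antisymm h2 (lower_cutBound hF hk hc), ?_⟩
      rintro ⟨w, hw⟩ cc
      exact Pool.OCG.cut_frac hk hw cc
    · exact le_antisymm
        (upper (by positivity) (up_cyc (cyc_ne_bot hk) hk (col_of_hom hk SimpleGraph.Hom.id)))
        (lower_cutBound (cyc_ne_bot hk) hk (cutBound_cycle hk))
  · rintro U _ _ B hB ⟨M, hM⟩
    obtain ⟨κ, hκ⟩ := sides_of_col hB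
    exact cone_threshold hκ hM
  · intro a b ha hab h
    exact tri_threshold ha hab h
  · intro a b c ha hb hc h
    exact tri_two_thirds ha hb hc h
  · exact all_rationals
  · rintro W _ F hF ⟨c⟩ hmax
    have hc : Prop3 F c := fun i j hij => c.valid hij
    have h1 : fracThreshold F ≤ 3 / 4 := by
      obtain ⟨c', hc', _, h2⟩ := exists_max hc
      refine (upper (le_max_of_le_left (by norm_num)) (up_max hF hc')).trans
        (max_le (by norm_num) ?_)
      unfold eRatio
      have he := ecount hc'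
      have hep : (0 : ℝ) < F.edgeFinset.card := by exact_mod_cast edge_pos hF
      have h3 : (F.edgeFinset.card : ℝ) ≤ 3 * ecol F c' 0 1 := by
        have : F.edgeFinset.card ≤ 3 * ecol F c' 0 1 := by omega
        exact_mod_cast this
      rw [div_le_div_iff₀ (by positivity) (by norm_num)]
      linarith
    rw [max_eq_right h1] at hmax
    refine ⟨hmax, fun hcut => le_antisymm hmax ?_⟩
    have h2 := lower_cutBound hF le_rfl hcut
    have e : (1 / 2 + 1 / (4 * ((1 : ℕ) : ℝ)) : ℝ) = 3 / 4 := by norm_num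
    rw [e] at h2
    exact h2.trans (frac_le_dec F)

end Pool.Agent.Results.MP_9205ce_co.FracThreeColourable
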