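import Pool.Agent.H34.Dec.Main

/-!
Upper bounds for the fractional decomposition threshold.
-/

open Finset Filter Topology
open scoped Classical

namespace Pool.Agent.Results.MP_9205ce_co.FracUpper

open Pool.H34.Dec

/-- `G` is `F`-divisible: `e(F)` divides `e(G)` and the gcd of the degrees of `F` divides every
degree of `G`. -/
def Divisible {W V : Type} [Fintype W] [Fintype V] (F : SimpleGraph W) (G : SimpleGraph V) : Prop :=
  F.edgeFinset.card ∣ G.edgeFinset.card ∧ ∀ v, (univ.gcd (fun x => F.degree x)) ∣ G.degree v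

/-- The fractional threshold `δ*_F`: the infimum of all `δ ∈ [0,1]` such that for some `n₀` every
`F`-divisible graph `G` on `n ≥ n₀` vertices with minimum degree at least `δ n` has a fractional
`F`-decomposition. -/
noncomputable def fracThreshold {W : Type} [Fintype W] (F : SimpleGraph W) : ℝ :=
  sInf {δ : ℝ | 0 ≤ δ ∧ δ ≤ 1 ∧ ∃ n₀ : ℕ, ∀ n ≥ n₀, ∀ G : SimpleGraph (Fin n), Divisible F G →
    (∀ v, δ * n ≤ G.degree v) → ∃ w, IsFracDecomp F G w}

/-- **Main theorem.** -/
theorem result : ∃ C : ℕ → ℝ,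
    (∀ q ≥ 3, 0 < C q ∧ C q ≤ 5.1) ∧ C 4 ≤ 4 ∧ Tendsto C atTop (𝓝 (Real.exp 1)) ∧
    ∀ (W : Type) [Fintype W] (F : SimpleGraph W), F ≠ ⊥ → 3 ≤ Fintype.card W →
      (∀ (V : Type) [Fintype V] (G : SimpleGraph V),
        (∀ v, (1 - 1 / (C (Fintype.card W) * Fintype.card W)) * Fintype.card V ≤ G.degree v) →
        ∃ w, IsFracDecomp F G w) ∧
      fracThreshold F ≤ 1 - 1 / (C (Fintype.card W) * Fintype.card W) := by
  obtain ⟨C, h1, h2, h3⟩ := Pool.H34.Dec.exists_const
  refine ⟨C, fun q hq => ⟨(h1 q hq).1, (h1 q hq).2.1⟩, h2, h3, ?_⟩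
  intro W _ F hF hW
  obtain ⟨hc, hc', ha⟩ := h1 _ hW
  have key : ∀ (V : Type) [Fintype V] (G : SimpleGraph V),
        (∀ v, (1 - 1 / (C (Fintype.card W) * Fintype.card W)) * Fintype.card V ≤ G.degree v) →
        ∃ w, IsFracDecomp F G w := fun V _ G hG => fracDecomp_of_adm F hF hW _ hc ha G hG
  refine ⟨key, ?_⟩
  apply csInf_le
  · exact ⟨0, fun δ hδ => hδ.1⟩
  · have hW' : (3 : ℝ) ≤ Fintype.card W := by exact_mod_cast hW
    have hcW : 0 < C (Fintype.card W) * Fintype.card W := by positivity
    refine ⟨?_, ?_, 0, ?_⟩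
    · -- nonnegativity: admissible constants are at least one over the number of vertices
      by_contra hneg
      push Not at hneg
      have hlt : C (Fintype.card W) * Fintype.card W < 1 := by
        have : 1 < 1 / (C (Fintype.card W) * Fintype.card W) := by linarith
        rwa [lt_div_iff₀ hcW, one_mul] at this
      obtain ⟨y, hy0, hy1, hQ⟩ := ha
      have hypos : 0 < y := lt_of_lt_of_le (by
        have : (0 : ℝ) < (Fintype.card W : ℝ) - 1 := by linarith
        positivity) hy0
      unfold Q at hQ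
      have e1 : 1 ≤ Real.exp (-((1 - y) * (C (Fintype.card W) * (Fintype.card W : ℝ) - 2) / Real.exp 1)) := by
        apply Real.one_le_exp
        have : (1 - y) * (C (Fintype.card W) * (Fintype.card W : ℝ) - 2) / Real.exp 1 ≤ 0 := by
          apply div_nonpos_of_nonpos_of_nonneg _ (Real.exp_pos 1).le
          apply mul_nonpos_of_nonneg_of_nonpos <;> linarith
        linarith
      have e2 : 1 < ((Fintype.card W : ℝ) - 1) ^ 2 / y ^ (Fintype.card W - 3) := by
        rw [lt_div_iff₀ (by positivity), one_mul]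
        have : y ^ (Fintype.card W - 3) ≤ 1 := pow_le_one₀ hypos.le hy1
        nlinarith
      nlinarith
    · have : 0 < 1 / (C (Fintype.card W) * Fintype.card W) := by positivity
      linarith
    · intro n _ G _ hG
      apply key (Fin n) G
      intro v
      rw [Fintype.card_fin]
      exact hG v

end Pool.Agent.Results.MP_9205ce_co.FracUpper
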