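import Pool.Agent.NSH.Thr
import Pool.Agent.NSH.Final

/-!
The asymptotic Nash-Williams conjecture: the triangle decomposition threshold is three quarters.

For every `ε > 0`, every sufficiently large `K_3`-divisible graph with minimum degree at least
`(3/4 + ε) n` has a `K_3`-decomposition, and `δ_{K_3} = 3/4`.
-/

open Finset
open scoped Classical

namespace Pool.Agent.Results.MP_9205ce_co.NashWilliams

/-- `G` is `F`-divisible: `e(F)` divides `e(G)` and the gcd of the degrees of `F` divides every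
degree of `G`. -/
def Divisible {W V : Type} [Fintype W] [Fintype V] (F : SimpleGraph W) (G : SimpleGraph V) : Prop :=
  F.edgeFinset.card ∣ G.edgeFinset.card ∧ ∀ v, (univ.gcd (fun x => F.degree x)) ∣ G.degree v

/-- `D` is an `F`-decomposition of `G`: the members of `D` are subgraphs of `G` isomorphic to `F`,
and each edge of `G` is in exactly one member of `D`. -/
def IsDecomp {W V : Type} (F : SimpleGraph W) (G : SimpleGraph V) (D : Set G.Subgraph) : Prop :=
  (∀ H ∈ D, Nonempty (F ≃g H.coe)) ∧ ∀ e ∈ G.edgeSet, ∃! H : G.Subgraph, H ∈ D ∧ e ∈ H.edgeSet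

/-- The decomposition threshold `δ_F`: the infimum of all `δ ∈ [0,1]` such that for some `n₀` every
`F`-divisible graph `G` on `n ≥ n₀` vertices with minimum degree at least `δ n` has an
`F`-decomposition. -/
noncomputable def threshold {W : Type} [Fintype W] (F : SimpleGraph W) : ℝ :=
  sInf {δ : ℝ | 0 ≤ δ ∧ δ ≤ 1 ∧ ∃ n₀ : ℕ, ∀ n ≥ n₀, ∀ G : SimpleGraph (Fin n), Divisible F G →
    (∀ v, δ * n ≤ G.degree v) → ∃ D, IsDecomp F G D}

/-- the upper bound -/
theorem upper {ε : ℝ} (hε : 0 < ε) : ∃ n₀ : ℕ, ∀ (V : Type) [Fintype V] (G : SimpleGraph V),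
    n₀ ≤ Fintype.card V → Divisible (⊤ : SimpleGraph (Fin 3)) G →
    (∀ v, (3 / 4 + ε) * Fintype.card V ≤ G.degree v) →
    ∃ D, IsDecomp (⊤ : SimpleGraph (Fin 3)) G D := by
  obtain ⟨n₀, h⟩ := Pool.NSH.final hε
  refine ⟨n₀, fun V _ G hn hdiv hdeg => Pool.NSH.decomp_of_hasDec G (h V G hn ?_ ?_ ?_)⟩
  · intro v
    rw [Pool.NSH.nb_univ_card G v _]
    exact hdeg v
  · intro v
    rw [Pool.NSH.nb_univ_card G v _, even_iff_two_dvd]
    refine dvd_trans ?_ (hdiv.2 v)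
    refine Finset.dvd_gcd fun x _ => ?_
    rw [Pool.NSH.deg_top3]
  · rw [Pool.NSH.ec_eq G _]
    refine Dvd.dvd.mul_left ?_ 2
    have h1 := hdiv.1
    rwa [Pool.NSH.card_top3] at h1

/-- **Main theorem.** -/
theorem result :
    (∀ ε : ℝ, 0 < ε → ∃ n₀ : ℕ, ∀ (V : Type) [Fintype V] (G : SimpleGraph V),
      n₀ ≤ Fintype.card V → Divisible (⊤ : SimpleGraph (Fin 3)) G →
      (∀ v, (3 / 4 + ε) * Fintype.card V ≤ G.degree v) →
      ∃ D, IsDecomp (⊤ : SimpleGraph (Fin 3)) G D) ∧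
    threshold (⊤ : SimpleGraph (Fin 3)) = 3 / 4 := by
  refine ⟨fun ε hε => upper hε, ?_⟩
  have hmem : ∀ ε : ℝ, 0 < ε → ε ≤ 1 / 4 → (3 / 4 + ε : ℝ) ∈ {δ : ℝ | 0 ≤ δ ∧ δ ≤ 1 ∧
      ∃ n₀ : ℕ, ∀ n ≥ n₀, ∀ G : SimpleGraph (Fin n), Divisible (⊤ : SimpleGraph (Fin 3)) G →
      (∀ v, δ * n ≤ G.degree v) → ∃ D, IsDecomp (⊤ : SimpleGraph (Fin 3)) G D} := by
    intro ε hε hε'
    obtain ⟨n₀, h⟩ := upper hε
    refine ⟨by linarith, by linarith, n₀, fun n hn G hdiv hdeg => ?_⟩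
    refine h (Fin n) G (by rw [Fintype.card_fin]; exact hn) hdiv ?_
    intro v
    rw [Fintype.card_fin]
    exact hdeg v
  apply le_antisymm
  · refine le_of_forall_pos_le_add fun ε hε => ?_
    refine (csInf_le ⟨0, fun δ hδ => hδ.1⟩
      (hmem (min ε (1 / 4)) (lt_min hε (by norm_num)) (min_le_right _ _))).trans ?_
    linarith [min_le_left ε (1 / 4)]
  · apply le_csInf ⟨_, hmem (1 / 4) (by norm_num) le_rfl⟩
    rintro δ ⟨_, _, n₀, hδ⟩
    by_contra hlt
    push Not at hlt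
    obtain ⟨n, hn, G, h3, h2, hdeg, hno⟩ := Pool.NSH.example_lower hlt n₀
    obtain ⟨D, hD⟩ := hδ n hn G ⟨by rw [Pool.NSH.card_top3]; exact h3 _, fun v => by
      refine (Finset.gcd_dvd (Finset.mem_univ (0 : Fin 3))).trans ?_
      rw [Pool.NSH.deg_top3]
      exact h2 v _⟩ fun v => hdeg v _
    exact hno (Pool.NSH.frac_of_decomp _ G D hD)

end Pool.Agent.Results.MP_9205ce_co.NashWilliams
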